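import Pool.Agent.Helper96.EL.Goals

/-!
# Packet EL-NT (MP_e44225_nt, project EL of helper96): points of large height are not torsion
-/

set_option autoImplicit false

open NumberField Height

namespace Pool.Agent.Helper39.EL

open Pool.Agent.Helper96.EL

universe u

theorem doubling {K : Type u} [Field K] [NumberField K] (W : WeierstrassCurve.Affine K)
    [W.IsElliptic] : ∃ C : ℝ, 0 ≤ C ∧ ∀ x : K,
      4 * logHeight₁ x - C ≤ logHeight₁ (phi W x / psi W x) := by
  obtain ⟨C, hC⟩ := WeierstrassCurve.abs_logHeight_addSubMap_sub_two_mul_logHeight_le W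
  refine ⟨|C|, abs_nonneg C, fun x => ?_⟩
  have h1 := hC ![x ^ 2, 2 * x, 1]
  have e1 : (fun i => MvPolynomial.eval ![x ^ 2, 2 * x, 1]
      (WeierstrassCurve.addSubMap W i)) = ![phi W x, psi W x, 0] := by
    funext i
    fin_cases i
    · simp [WeierstrassCurve.addSubMap, phi]
      ring
    · simp [WeierstrassCurve.addSubMap, psi]
      ring
    · simp [WeierstrassCurve.addSubMap]
      ring
  rw [e1, logHeight_cons_cons_cons_zero, ← logHeight₁_div_eq_logHeight] at h1
  have h2 : logHeight (![x ^ 2, 2 * x, 1] ∘ ![(0 : Fin 3), 2]) ≤ logHeight ![x ^ 2, 2 * x, 1] :=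
    logHeight_comp_le _ _
  have e2 : (![x ^ 2, 2 * x, 1] ∘ ![(0 : Fin 3), 2]) = ![x ^ 2, 1] := by
    funext i
    fin_cases i <;> simp
  rw [e2, ← logHeight₁_eq_logHeight, logHeight₁_pow] at h2
  have h3 := (abs_le.1 h1).1
  have h4 := le_abs_self C
  push_cast at h2
  linarith

/-- the orbit of `x` under doubling -/
noncomputable def orb {K : Type u} [Field K] (W : WeierstrassCurve.Affine K) (x : K) : ℕ → K
  | 0 => x
  | i + 1 => phi W (orb W x i) / psi W (orb W x i)

/-- **Packet EL-NT.** -/
theorem nt : NT.{u} := by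
  intro k K _ _ _ _ W _
  obtain ⟨C, hC0, hC⟩ := doubling (W.baseChange K)
  refine ⟨C, ?_⟩
  intro L _ _ _ _ _ x P hB hP hx n hn hnP
  have hpsi : ∀ y : K, C < logHeight₁ y → psi (W.baseChange K) y ≠ 0 := by
    intro y hy h0
    have h := hC y
    rw [h0, div_zero, logHeight₁_zero] at h
    linarith
  have horb : ∀ i, C < logHeight₁ (orb (W.baseChange K) x i) := by
    intro i
    induction i with
    | zero => exact hB
    | succ i ih =>
      have h := hC (orb (W.baseChange K) x i)
      change C < logHeight₁ (phi (W.baseChange K) (orb (W.baseChange K) x i) /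
        psi (W.baseChange K) (orb (W.baseChange K) x i))
      linarith
  have hmono : StrictMono (fun i => logHeight₁ (orb (W.baseChange K) x i)) := by
    refine strictMono_nat_of_lt_succ fun i => ?_
    have h := hC (orb (W.baseChange K) x i)
    have h2 := horb i
    change _ < logHeight₁ (phi (W.baseChange K) (orb (W.baseChange K) x i) /
        psi (W.baseChange K) (orb (W.baseChange K) x i))
    linarith
  have hpt : ∀ i : ℕ, (2 ^ i) • P ≠ 0 ∧
      xv ((2 ^ i) • P) = algebraMap K L (orb (W.baseChange K) x i) := by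
    intro i
    induction i with
    | zero => exact ⟨by simpa using hP, by simpa [orb] using hx⟩
    | succ i ih =>
      obtain ⟨h1, h2⟩ := ih
      have hps : psi (W.baseChange L) (xv ((2 ^ i) • P)) ≠ 0 := by
        rw [h2, psi_tower]
        exact (map_ne_zero (algebraMap K L)).2 (hpsi _ (horb i))
      have hY : Yv ((2 ^ i) • P) ≠ 0 := by
        intro h0
        have := Yv_sq h1
        rw [h0] at this
        apply hps
        rw [← this]
        ring
      obtain ⟨h3, h4⟩ := dbl_formula h1 hY
      have e : (2 ^ (i + 1)) • P = (2 ^ i) • P + (2 ^ i) • P := by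
        rw [pow_succ, mul_comm, mul_smul, two_smul]
      rw [e]
      refine ⟨h3, ?_⟩
      rw [h2, psi_tower, phi_tower] at h4
      rw [h2, psi_tower] at hps
      change _ = algebraMap K L (phi (W.baseChange K) (orb (W.baseChange K) x i) /
        psi (W.baseChange K) (orb (W.baseChange K) x i))
      rw [map_div₀, eq_div_iff hps]
      exact h4
  have hinj : Function.Injective (fun i : ℕ => (2 ^ i) • P) := by
    intro i j hij
    have h : xv ((2 ^ i) • P) = xv ((2 ^ j) • P) := congrArg xv hij
    rw [(hpt i).2, (hpt j).2] at h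
    have h' := (algebraMap K L).injective h
    exact hmono.injective (congrArg logHeight₁ h')
  have hfin : IsOfFinAddOrder P := isOfFinAddOrder_iff_zsmul_eq_zero.2 ⟨n, hn, hnP⟩
  have hfin2 : ((AddSubgroup.zmultiples P : AddSubgroup _) : Set (W.baseChange L).Point).Finite :=
    hfin.finite_zmultiples
  refine Set.infinite_of_injective_forall_mem hinj (fun i => ?_) hfin2
  exact AddSubgroup.nsmul_mem _ (AddSubgroup.mem_zmultiples P) _

end Pool.Agent.Helper39.EL
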